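import Pool.Agent.H76.SD.Targets

/-!
# SD board, module EVA: values of the pseudo-density for balanced tables
-/

set_option autoImplicit false

namespace Pool.Agent.H48.SD

open Finset
open Pool.Agent.H76.SD
open Pool.Agent.H1.LP (Loc PD Viol Sys supp ip val Agree FS Typ kk S_MAIN)

theorem eva (hMAIN : S_MAIN) (hTYC : T_TYC) : T_EVA := by
  intro p B d g s0 _ Q _ _ _ S al hBal hpB herr hs0
  constructor
  · -- the whole space: `T = ∅`
    have hw : Nonempty (Fin B → Q) := inferInstance
    obtain ⟨w⟩ := hw
    have hA : ∀ x : Fin B → Q, Agree (∅ : Finset (Fin B)) x w := fun x j hj => absurd hj (by simp)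
    have hV : ∀ x : Fin B → Q, (if Agree (∅ : Finset (Fin B)) x w then (1 : ℝ) else 0) = 1 :=
      fun x => if_pos (hA x)
    have hT := hTYC p B g Q al ∅ w hBal
    have h := hMAIN p B d Q S g s0 ∅ w
      (fun x => if Agree (∅ : Finset (Fin B)) x w then (1 : ℝ) else 0) al
      (fun x => by split_ifs <;> norm_num) (fun x _ => hA x) (by simpa using hs0) hT hpB
    have hg0 : S.ga 0 = 0 := by
      have h1 := S.add_ga 0 S.zero_mem 0 S.zero_mem (by
        rw [add_zero]
        exact S.small 0 S.zero_mem)
      rw [add_zero] at h1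
      exact left_eq_add.mp h1
    have hnv : ¬ Viol S ∅ (val al w) := by
      rintro ⟨l, -, hl, hne⟩
      apply hne
      have hl0 : l = 0 := by
        funext j
        by_contra hj
        have : j ∈ supp l := by
          simp only [supp, mem_filter, mem_univ, true_and]
          exact hj
        exact absurd (hl this) (by simp)
      subst hl0
      rw [hg0]
      simp [ip]
    have h2 := h.2 hnv
    have h3 : (∑ x : Fin B → Q, (if Agree (∅ : Finset (Fin B)) x w then (1 : ℝ) else 0)) =
        (Fintype.card (Fin B → Q) : ℝ) := by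
      rw [Finset.sum_congr rfl fun x _ => hV x]
      simp
    have h4 : (∑ x : Fin B → Q, PD S al x *
        (if Agree (∅ : Finset (Fin B)) x w then (1 : ℝ) else 0)) = ∑ x, PD S al x :=
      Finset.sum_congr rfl fun x _ => by rw [hV x, mul_one]
    rw [h3, h4] at h2
    have hc : (0 : ℝ) ≤ (Fintype.card (Fin B → Q) : ℝ) := Nat.cast_nonneg _
    refine le_trans ?_ h2
    have : (1 / 4 : ℝ) ≤ 3 / 8 - 2 * (p : ℝ) ^ B / 2 ^ (g * (s0 + 1)) := by linarith
    calc (Fintype.card (Fin B → Q) : ℝ) / 4 = 1 / 4 * (Fintype.card (Fin B → Q) : ℝ) := by ring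
      _ ≤ _ := mul_le_mul_of_nonneg_right this hc
  · intro T w hT hviol
    have hT2 := hTYC p B g Q al T w hBal
    have h := hMAIN p B d Q S g s0 T w
      (fun x => if Agree T x w then (1 : ℝ) else 0) al
      (fun x => by split_ifs <;> norm_num)
      (fun x hx => by
        by_contra hn
        exact hx (if_neg hn)) hT hT2 hpB
    have h1 := h.1 hviol
    have h3 : (∑ x : Fin B → Q, (if Agree T x w then (1 : ℝ) else 0)) =
        ((univ.filter (fun x => Agree T x w)).card : ℝ) := by
      rw [Finset.sum_boole]
    have h4 : (∑ x : Fin B → Q, PD S al x * (if Agree T x w then (1 : ℝ) else 0)) =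
        ∑ x with Agree T x w, PD S al x := by
      rw [Finset.sum_filter]
      exact Finset.sum_congr rfl fun x _ => by split_ifs <;> simp
    rw [h3, h4] at h1
    exact h1

end Pool.Agent.H48.SD
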